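import Mathlib
/-!
# Simplicial volume of closed affine manifolds: a sublinear bound suffices

The holonomy group of a closed affine manifold of positive dimension is an infinite finitely
generated linear group, so it is residually finite (Malcev) and the manifold has finite covers of
arbitrarily large degree, which are again affine. Let `c(M)` be the least number of simplices of a
triangulation of `M`. It is shown that Q1 (`‖M‖ = 0` for all closed affine manifolds) is equivalent
to the boundedness of the simplicial volumes of the closed affine `n`-manifolds, and to the bounds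
`‖M‖ ≤ ε c(M) + C` for every `ε > 0` with a constant `C = C(n, ε)`; in both statements `n` only has
to run through a set of dimensions which contains a multiple of every positive integer. For a single
closed affine manifold, `‖M‖ = 0` if and only if the simplicial volumes of its finite covers grow
sublinearly in the degree.
-/
set_option autoImplicit false

namespace Pool.Agent.Results.MP_f22a19_gt.SublinearBoundSuffices

universe u

/-- Closed connected affine manifolds of positive dimension. -/
structure Mfds where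
  /-- the manifolds -/
  Mfd : Type u
  /-- the dimension -/
  dim : Mfd → ℕ
  /-- the simplicial volume -/
  sv : Mfd → ℝ
  /-- the least number of simplices of a triangulation -/
  simp : Mfd → ℕ
  /-- the fundamental group -/
  Pi : Mfd → Type u
  /-- the holonomy group (the image of the fundamental group in the affine group) -/
  Hol : Mfd → Type u
  [piGrp : ∀ M, Group (Pi M)]
  [holGrp : ∀ M, Group (Hol M)]
  /-- the holonomy -/
  hol : ∀ M, Pi M →* Hol M
  /-- `IsCover M' M d`: `M'` is a connected cover of `M` of degree `d` -/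
  IsCover : Mfd → Mfd → ℕ → Prop

attribute [instance] Mfds.piGrp Mfds.holGrp

/-- The known properties. -/
structure IsKnown (T : Mfds.{u}) : Prop where
  /-- the dimension is positive -/
  dim_pos : ∀ M, 0 < T.dim M
  /-- simplicial volumes are not negative -/
  nonneg : ∀ M, 0 ≤ T.sv M
  /-- products are affine, and `‖M × N‖ ≥ ‖M‖ ‖N‖` (Gromov) -/
  prod : ∀ M N : T.Mfd, ∃ P : T.Mfd, T.dim P = T.dim M + T.dim N ∧ T.sv M * T.sv N ≤ T.sv P
  /-- finite covers -/
  cover : ∀ M' M d, T.IsCover M' M d →
    T.dim M' = T.dim M ∧ T.sv M' = d * T.sv M ∧ T.simp M' ≤ d * T.simp M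
  /-- subgroups of finite index of the fundamental group belong to covers -/
  exists_cover : ∀ M (H : Subgroup (T.Pi M)), H.index ≠ 0 → ∃ M', T.IsCover M' M H.index
  /-- the holonomy group is the image of the fundamental group -/
  hol_surj : ∀ M, Function.Surjective (T.hol M)
  /-- the holonomy group is infinite (a closed affine manifold with finite holonomy group has a
  finite cover with a developing map to `ℝ^n`, a local diffeomorphism on a closed manifold) -/
  hol_infinite : ∀ M, Infinite (T.Hol M)
  /-- Malcev: the holonomy group, a finitely generated linear group, is residually finite -/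
  malcev : ∀ M (g : T.Hol M), g ≠ 1 → ∃ N : Subgroup (T.Hol M), N.Normal ∧ N.index ≠ 0 ∧ g ∉ N

/-- An infinite residually finite group has normal subgroups of arbitrarily large finite index. -/
theorem exists_index {G : Type*} [Group G] [Infinite G]
    (h : ∀ g : G, g ≠ 1 → ∃ N : Subgroup G, N.Normal ∧ N.index ≠ 0 ∧ g ∉ N) (d : ℕ) :
    ∃ N : Subgroup G, N.index ≠ 0 ∧ d ≤ N.index := by
  classical
  obtain ⟨s, hs⟩ := Infinite.exists_subset_card_eq G d
  have hN : ∀ p : G × G, ∃ N : Subgroup G, N.Normal ∧ N.index ≠ 0 ∧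
      (p.1 ≠ p.2 → p.1⁻¹ * p.2 ∉ N) := by
    intro p
    by_cases hp : p.1 = p.2
    · exact ⟨⊤, inferInstance, by simp, fun h => absurd hp h⟩
    · obtain ⟨N, h1, h2, h3⟩ := h (p.1⁻¹ * p.2) (by
        intro e
        exact hp (inv_mul_eq_one.1 e))
      exact ⟨N, h1, h2, fun _ => h3⟩
  choose N hN1 hN2 hN3 using hN
  set K : Subgroup G := ⨅ p ∈ s ×ˢ s, N p with hK
  have hKi : K.index ≠ 0 := by
    have h1 : ∀ t : Finset (G × G), (⨅ p ∈ t, N p).index ≠ 0 := by
      intro t
      induction t using Finset.induction_on with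
      | empty => simp
      | insert a t ha ih =>
        rw [Finset.iInf_insert]
        exact Subgroup.index_inf_ne_zero (hN2 a) ih
    exact h1 _
  refine ⟨K, hKi, ?_⟩
  have hKf : K.FiniteIndex := ⟨hKi⟩
  have hfin : Finite (G ⧸ K) := inferInstance
  have hinj : Set.InjOn (fun g : G => (g : G ⧸ K)) (s : Set G) := by
    intro a ha b hb hab
    by_contra hne
    have h2 : a⁻¹ * b ∈ K := QuotientGroup.eq.1 hab
    have h3 : K ≤ N (a, b) := by
      rw [hK]
      exact iInf₂_le_of_le (a, b) (Finset.mk_mem_product ha hb) le_rfl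
    exact hN3 (a, b) hne (h3 h2)
  rw [← hs, Subgroup.index]
  have : Fintype (G ⧸ K) := Fintype.ofFinite _
  rw [Nat.card_eq_fintype_card]
  calc s.card = (s.image fun g : G => (g : G ⧸ K)).card :=
        (Finset.card_image_of_injOn hinj).symm
    _ ≤ Fintype.card (G ⧸ K) := Finset.card_le_univ _

variable {T : Mfds.{u}}

/-- closed affine manifolds have finite covers of arbitrarily large degree -/
theorem exists_covers (h : IsKnown T) (M : T.Mfd) (d : ℕ) :
    ∃ M' e, d ≤ e ∧ T.IsCover M' M e := by
  have := h.hol_infinite M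
  obtain ⟨N, hN0, hN⟩ := exists_index (h.malcev M) d
  have e : (N.comap (T.hol M)).index = N.index :=
    Subgroup.index_comap_of_surjective N (h.hol_surj M)
  obtain ⟨M', hM'⟩ := h.exists_cover M (N.comap (T.hol M)) (by rw [e]; exact hN0)
  exact ⟨M', _, by rw [e]; exact hN, hM'⟩

/-- Q1 in dimension `n`. -/
def Holds (T : Mfds.{u}) (n : ℕ) : Prop := ∀ M : T.Mfd, T.dim M = n → T.sv M = 0

/-- The simplicial volumes of the closed affine `n`-manifolds are bounded. -/
def Bounded (T : Mfds.{u}) (n : ℕ) : Prop := ∃ C : ℝ, ∀ M : T.Mfd, T.dim M = n → T.sv M ≤ C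

/-- For every `ε > 0` there is a `C` such that `‖M‖ ≤ ε c(M) + C` for all closed affine
`n`-manifolds. -/
def Sublinear (T : Mfds.{u}) (n : ℕ) : Prop :=
  ∀ ε : ℝ, 0 < ε → ∃ C : ℝ, ∀ M : T.Mfd, T.dim M = n → T.sv M ≤ ε * T.simp M + C

/-- For every `ε > 0` the finite covers of `M` of large degree `d` have simplicial volume at most
`ε d`. -/
def CoversSublinear (T : Mfds.{u}) (M : T.Mfd) : Prop :=
  ∀ ε : ℝ, 0 < ε → ∃ d₀ : ℕ, ∀ M' d, d₀ ≤ d → T.IsCover M' M d → T.sv M' ≤ ε * d

theorem holds_of_sublinear (h : IsKnown T) {n : ℕ} (hs : Sublinear T n) : Holds T n := by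
  intro M hM
  by_contra hne
  have hpos : 0 < T.sv M := lt_of_le_of_ne (h.nonneg M) (Ne.symm hne)
  obtain ⟨C, hC⟩ := hs (T.sv M / (2 * (T.simp M + 1))) (by positivity)
  obtain ⟨d, hd⟩ := exists_nat_gt (max 1 (2 * C / T.sv M))
  have hd1 : (1 : ℝ) < d := (le_max_left _ _).trans_lt hd
  have hd2 : 2 * C / T.sv M < d := (le_max_right _ _).trans_lt hd
  obtain ⟨M', e, hde, hM'⟩ := exists_covers h M d
  obtain ⟨h1, h2, h3⟩ := h.cover _ _ _ hM'
  have hde' : (d : ℝ) ≤ e := by exact_mod_cast hde
  have h4 := hC M' (h1.trans hM)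
  rw [h2] at h4
  have h5 : (T.simp M' : ℝ) ≤ e * (T.simp M + 1) := by
    have h6 : (T.simp M' : ℝ) ≤ e * T.simp M := by exact_mod_cast h3
    have h7 : (0 : ℝ) ≤ e := Nat.cast_nonneg e
    nlinarith
  have h6 : T.sv M / (2 * (T.simp M + 1)) * T.simp M' ≤ e * T.sv M / 2 := by
    refine (mul_le_mul_of_nonneg_left h5 (by positivity)).trans (le_of_eq ?_)
    field_simp
  have h7 : 2 * C < e * T.sv M := by
    rw [div_lt_iff₀ hpos] at hd2
    exact hd2.trans_le (mul_le_mul_of_nonneg_right hde' hpos.le)
  linarith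

theorem exists_power (h : IsKnown T) (M : T.Mfd) (hM : 0 < T.sv M) (k : ℕ) :
    ∃ P : T.Mfd, T.dim P = (k + 1) * T.dim M ∧ 0 < T.sv P := by
  induction k with
  | zero => exact ⟨M, by simp, hM⟩
  | succ k ih =>
    obtain ⟨P, hP1, hP2⟩ := ih
    obtain ⟨R, hR1, hR2⟩ := h.prod P M
    exact ⟨R, by rw [hR1, hP1]; ring, (mul_pos hP2 hM).trans_le hR2⟩

/-- For a closed affine manifold `M`: `‖M‖ = 0` iff the simplicial volumes of its covers grow
sublinearly in the degree; in every dimension Q1, boundedness and the sublinear bound are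
equivalent; Q1 is equivalent to each of them in the dimensions of a set `K` which contains a multiple
of every positive integer. -/
theorem result (T : Mfds.{u}) (h : IsKnown T) :
    (∀ M, T.sv M = 0 ↔ CoversSublinear T M) ∧
    (∀ n, List.TFAE [Holds T n, Bounded T n, Sublinear T n]) ∧
    ∀ K : Set ℕ, (∀ n, 0 < n → ∃ k ∈ K, 0 < k ∧ n ∣ k) →
      List.TFAE [∀ n, Holds T n, ∀ n ∈ K, Holds T n, ∀ n ∈ K, Bounded T n,
        ∀ n ∈ K, Sublinear T n] := by
  have htfae : ∀ n, List.TFAE [Holds T n, Bounded T n, Sublinear T n] := by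
    intro n
    tfae_have 1 → 2 := fun h1 => ⟨0, fun M hM => (h1 M hM).le⟩
    tfae_have 2 → 3 := by
      rintro ⟨C, hC⟩ ε hε
      refine ⟨C, fun M hM => (hC M hM).trans ?_⟩
      have : 0 ≤ ε * (T.simp M : ℝ) := by positivity
      linarith
    tfae_have 3 → 1 := holds_of_sublinear h
    tfae_finish
  refine ⟨fun M => ⟨fun h0 ε hε => ⟨0, fun M' d _ hM' => ?_⟩, fun hs => ?_⟩, htfae,
    fun K hK => ?_⟩
  · rw [(h.cover _ _ _ hM').2.1, h0, mul_zero]
    positivity
  · by_contra hne
    have hpos : 0 < T.sv M := lt_of_le_of_ne (h.nonneg M) (Ne.symm hne)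
    obtain ⟨d₀, hd₀⟩ := hs (T.sv M / 2) (by positivity)
    obtain ⟨M', e, he, hM'⟩ := exists_covers h M (d₀ + 1)
    have h1 := hd₀ M' e (by omega) hM'
    rw [(h.cover _ _ _ hM').2.1] at h1
    have h2 : (1 : ℝ) ≤ e := by
      have : 1 ≤ e := by omega
      exact_mod_cast this
    nlinarith
  · tfae_have 1 → 2 := fun h1 n _ => h1 n
    tfae_have 2 → 3 := fun h1 n hn => ((htfae n).out 0 1).1 (h1 n hn)
    tfae_have 3 → 4 := fun h1 n hn => ((htfae n).out 1 2).1 (h1 n hn)
    tfae_have 4 → 1 := by
      intro h4 n M hM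
      by_contra hne
      have hpos : 0 < T.sv M := lt_of_le_of_ne (h.nonneg M) (Ne.symm hne)
      obtain ⟨k, hk, hk0, m, rfl⟩ := hK n (hM ▸ h.dim_pos M)
      obtain ⟨m, rfl⟩ : ∃ m', m = m' + 1 := ⟨m - 1, by
        rcases Nat.eq_zero_or_pos m with h0 | h0
        · subst h0
          simp at hk0
        · omega⟩
      obtain ⟨P, hP1, hP2⟩ := exists_power h M hpos m
      have h5 := holds_of_sublinear h (h4 _ hk) P (by rw [hP1, hM]; ring)
      exact hP2.ne' h5
    tfae_finish

end Pool.Agent.Results.MP_f22a19_gt.SublinearBoundSuffices
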